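import Mathlib
import Pool.Agent.TH767.B.Main
import Pool.Agent.TH767.B.Arith

/-!
In ZFC, if `κ` is completely characterizable and `l` is completely characterizable or
`2 ≤ l ≤ 2 ^ κ`, then `l ^ κ` is homogeneously characterizable (and so completely
characterizable).
-/

set_option autoImplicit false

namespace Pool.Agent.Results.MP_18f1d7_lc.ExponentiationHom

open Pool.Agent.TH767.B Cardinal

/-- Let `κ` be completely characterizable and let `l` be completely characterizable or an arbitrary
cardinal with `2 ≤ l ≤ 2 ^ κ`. Then `l ^ κ` is homogeneously characterizable and completely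
characterizable. -/
theorem result : ∀ κ l : Cardinal.{0}, Ch κ → (Ch l ∨ (2 ≤ l ∧ l ≤ 2 ^ κ)) →
    HomCh (l ^ κ) ∧ Ch (l ^ κ) := by
  intro κ l hk hl
  have hl2 : (2 : Cardinal.{0}) ≤ l := by
    rcases hl with h | h
    · exact (natCast_lt_aleph0 (n := 2)).le.trans h.1
    · exact h.1
  have h : Ch (l ^ κ) := by
    rcases hl with h | h
    · exact ch_pow hk h
    · have h2 : l ^ κ = 2 ^ κ := by
        refine le_antisymm ?_ (power_le_power_right hl2)
        refine (power_le_power_right h.2).trans ?_
        rw [← power_mul, mul_eq_self hk.1]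
      rw [h2]
      exact ch_two_pow hk
  refine ⟨homCh_of_ch h ?_, h⟩
  exact (hk.1.trans_lt ((cantor κ).trans_le (power_le_power_right hl2))).ne'

end Pool.Agent.Results.MP_18f1d7_lc.ExponentiationHom
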